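import Mathlib

namespace Pool.Agent.Results.MP_c6f870_an.Yes

open ContinuousLinearMap
open scoped InnerProductSpace ComplexOrder

section defs

variable {H : Type} [NormedAddCommGroup H] [InnerProductSpace ℂ H]

/-- The Hilbert space adjoint `T*` (the star operation on bounded operators). -/
noncomputable def adj [CompleteSpace H] (T : H →L[ℂ] H) : H →L[ℂ] H := star T

/-- The operator `S + l T`. -/
noncomputable def addSmul (S : H →L[ℂ] H) (l : ℂ) (T : H →L[ℂ] H) : H →L[ℂ] H := S + l • T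

/-- `T` is hyponormal: the self-commutator `T*T - TT*` is a positive operator. -/
def Hyponormal [CompleteSpace H] (T : H →L[ℂ] H) : Prop :=
  ((adj T).comp T - T.comp (adj T)).IsPositive

/-- `T + λ T²` is hyponormal for every complex `λ`. -/
def QuadHyponormal [CompleteSpace H] (T : H →L[ℂ] H) : Prop :=
  ∀ l : ℂ, Hyponormal (addSmul T l (T.comp T))

/-- `T + λ T² + μ T³` is hyponormal for all complex `λ`, `μ`. -/
def CubicHyponormal [CompleteSpace H] (T : H →L[ℂ] H) : Prop :=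
  ∀ l m : ℂ, Hyponormal (addSmul (addSmul T l (T.comp T)) m (T.comp (T.comp T)))

end defs

/-- `ℂ^p` with the Euclidean inner product. -/
abbrev Vec (p : ℕ) := EuclideanSpace ℂ (Fin p)

/-- `ℓ²(E)`, square-summable sequences in `E`. -/
def L2 (E : Type) [NormedAddCommGroup E] : Type := lp (fun _ : ℕ => E) 2

noncomputable instance instN (E : Type) [NormedAddCommGroup E] : NormedAddCommGroup (L2 E) :=
  (inferInstance : NormedAddCommGroup (lp (fun _ : ℕ => E) 2))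

noncomputable instance instI (E : Type) [NormedAddCommGroup E] [InnerProductSpace ℂ E] :
    InnerProductSpace ℂ (L2 E) :=
  (inferInstance : InnerProductSpace ℂ (lp (fun _ : ℕ => E) 2))

instance instC (E : Type) [NormedAddCommGroup E] [CompleteSpace E] : CompleteSpace (L2 E) :=
  (inferInstance : CompleteSpace (lp (fun _ : ℕ => E) 2))

/-- The `n`-th entry of a square-summable sequence. -/
def coord {E : Type} [NormedAddCommGroup E] (h : L2 E) (n : ℕ) : E :=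
  (show lp (fun _ : ℕ => E) 2 from h) n

/-- `W` is the weighted shift with weights `A`: `W (x₀, x₁, …) = (0, A₀ x₀, A₁ x₁, …)`. -/
def IsShift {E : Type} [NormedAddCommGroup E] [InnerProductSpace ℂ E] (A : ℕ → E → E)
    (W : L2 E →L[ℂ] L2 E) : Prop :=
  ∀ h : L2 E, coord (W h) 0 = 0 ∧ ∀ n, coord (W h) (n + 1) = A n (coord h n)

/-- The weighted shift with weights `A` is a bounded operator on `ℓ²(E)` that is cubically
hyponormal or quadratically hyponormal. -/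
def ShiftHyp {E : Type} [NormedAddCommGroup E] [InnerProductSpace ℂ E] [CompleteSpace E]
    (A : ℕ → E → E) : Prop :=
  ∃ W : L2 E →L[ℂ] L2 E, IsShift A W ∧ (CubicHyponormal W ∨ QuadHyponormal W)

/-- A matrix acting on `ℂ^p`. -/
def act {p : ℕ} (M : Matrix (Fin p) (Fin p) ℂ) (v : Vec p) : Vec p :=
  WithLp.toLp 2 (M.mulVec v.ofLp)

section core

variable {E : Type} [NormedAddCommGroup E] [InnerProductSpace ℂ E] [CompleteSpace E]

lemma hypo_le {H : Type} [NormedAddCommGroup H] [InnerProductSpace ℂ H] [CompleteSpace H]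
    {T : H →L[ℂ] H} (hT : Hyponormal T) (h : H) : ‖adjoint T h‖ ^ 2 ≤ ‖T h‖ ^ 2 := by
  have h1 := hT.re_inner_nonneg_left h
  have e1 : ⟪adjoint T (T h), h⟫_ℂ = ⟪T h, T h⟫_ℂ := adjoint_inner_left _ _ _
  have e2 : ⟪T (adjoint T h), h⟫_ℂ = ⟪adjoint T h, adjoint T h⟫_ℂ :=
    (adjoint_inner_right _ _ _).symm
  simp only [adj, star_eq_adjoint, sub_apply, comp_apply, inner_sub_left, e1, e2, map_sub, inner_self_eq_norm_sq] at h1
  linarith

/-- Embedding of `E` at level `n`. -/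
noncomputable def e (n : ℕ) : E →L[ℂ] lp (fun _ : ℕ => E) 2 :=
  lp.singleContinuousLinearMap ℂ (fun _ : ℕ => E) 2 n

omit [CompleteSpace E] in
lemma e_apply (n m : ℕ) (a : E) : e n a m = if m = n then a else 0 := by
  simp only [e, lp.singleContinuousLinearMap_apply, lp.single_apply, Pi.single_apply]

omit [CompleteSpace E] in
lemma norm_add_e (g : lp (fun _ : ℕ => E) 2) (n : ℕ) (a : E) (hg : g n = 0) :
    ‖g + e n a‖ ^ 2 = ‖g‖ ^ 2 + ‖a‖ ^ 2 := by
  have h1 : ⟪g, e n a⟫_ℂ = 0 := by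
    simp only [e, lp.singleContinuousLinearMap_apply, lp.inner_single_right, hg, inner_zero_left]
  have h2 : ‖e n a‖ = ‖a‖ := by
    simp only [e, lp.singleContinuousLinearMap_apply]
    exact lp.norm_single (E := fun _ : ℕ => E) (p := 2) (by norm_num) n a
  rw [norm_add_sq (𝕜 := ℂ), h1, h2]; simp

omit [CompleteSpace E] in
lemma sum_le (g : lp (fun _ : ℕ => E) 2) (F : Finset ℕ) : ∑ n ∈ F, ‖g n‖ ^ 2 ≤ ‖g‖ ^ 2 := by
  have := lp.sum_rpow_le_norm_rpow (p := 2) (by norm_num) g F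
  simpa using this

variable (A : ℕ → E →ₗ[ℂ] E) (W : lp (fun _ : ℕ => E) 2 →L[ℂ] lp (fun _ : ℕ => E) 2)

omit [CompleteSpace E] in
lemma W_e (hW : ∀ h, W h 0 = 0 ∧ ∀ n, W h (n + 1) = A n (h n)) (n : ℕ) (a : E) :
    W (e n a) = e (n + 1) (A n a) := by
  ext m
  rcases m with _ | m
  · rw [(hW _).1, e_apply]; simp
  · rw [(hW _).2, e_apply, e_apply]
    by_cases hm : m = n
    · simp [hm]
    · simp [hm]

lemma adj_apply (hs : ∀ n, (A n).IsSymmetric)
    (hW : ∀ h, W h 0 = 0 ∧ ∀ n, W h (n + 1) = A n (h n)) (g : lp (fun _ : ℕ => E) 2) (n : ℕ) :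
    adjoint W g n = A n (g (n + 1)) := by
  apply ext_inner_right ℂ
  intro v
  have h1 : ⟪adjoint W g n, v⟫_ℂ = ⟪adjoint W g, e n v⟫_ℂ := by
    simp only [e, lp.singleContinuousLinearMap_apply, lp.inner_single_right]
  have h2 : ⟪g, e (n + 1) (A n v)⟫_ℂ = ⟪g (n + 1), A n v⟫_ℂ := by
    simp only [e, lp.singleContinuousLinearMap_apply, lp.inner_single_right]
  rw [h1, adjoint_inner_left, W_e A W hW, h2, hs n]

lemma adjS_apply (hs : ∀ n, (A n).IsSymmetric)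
    (hW : ∀ h, W h 0 = 0 ∧ ∀ n, W h (n + 1) = A n (h n)) (s : ℝ) (g : lp (fun _ : ℕ => E) 2)
    (n : ℕ) : (adjoint (W + (s : ℂ) • W ^ 2) g : lp (fun _ : ℕ => E) 2) n
      = A n (g (n + 1)) + (s : ℂ) • A n (A (n + 1) (g (n + 2))) := by
  have h1 : adjoint (W + (s : ℂ) • W ^ 2) = adjoint W + (s : ℂ) • (adjoint W * adjoint W) := by
    rw [← star_eq_adjoint, ← star_eq_adjoint, star_add, star_smul, pow_two, star_mul]
    simp
  rw [h1]
  simp only [add_apply, smul_apply, mul_apply_eq_comp, lp.coeFn_add, lp.coeFn_smul, Pi.add_apply,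
    Pi.smul_apply, adj_apply A W hs hW]

omit [CompleteSpace E] in
lemma nsq (a b : ℝ) (u v : E) : ‖(a : ℂ) • u + (b : ℂ) • v‖ ^ 2
    = a ^ 2 * ‖u‖ ^ 2 + 2 * a * b * (⟪u, v⟫_ℂ).re + b ^ 2 * ‖v‖ ^ 2 := by
  rw [norm_add_sq (𝕜 := ℂ), inner_smul_left, inner_smul_right, norm_smul, norm_smul]
  simp only [Complex.norm_real, Real.norm_eq_abs, mul_pow, sq_abs, Complex.conj_ofReal,
    RCLike.re_to_complex, Complex.re_ofReal_mul]
  ring

omit [CompleteSpace E] in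
lemma nsq1 (a : ℝ) (u : E) : ‖(a : ℂ) • u‖ ^ 2 = a ^ 2 * ‖u‖ ^ 2 := by
  rw [norm_smul]; simp [mul_pow]

lemma small {M C : ℝ} (h : ∀ s : ℝ, 0 < s → s ^ 4 * M ≤ s ^ 6 * C) : M ≤ 0 := by
  by_contra hM
  push Not at hM
  have hC : 0 < C := by
    have := h 1 one_pos
    linarith
  have h1 := h (Real.sqrt (M / (2 * C))) (Real.sqrt_pos.2 (by positivity))
  set s := Real.sqrt (M / (2 * C)) with hsd
  have hs2 : s ^ 2 = M / (2 * C) := Real.sq_sqrt (by positivity)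
  have hs : 0 < s := Real.sqrt_pos.2 (by positivity)
  have h2 : s ^ 6 * C = s ^ 4 * (M / 2) := by
    have : s ^ 6 = s ^ 4 * s ^ 2 := by ring
    rw [this, hs2]; field_simp
  have h3 : 0 < s ^ 4 * M := by positivity
  nlinarith

/-- The key estimate for a common eigenvector of two consecutive weights. -/
lemma key (hs : ∀ n, (A n).IsSymmetric)
    (hW : ∀ h, W h 0 = 0 ∧ ∀ n, W h (n + 1) = A n (h n)) (hQ : QuadHyponormal W)
    (j : ℕ) (x q : E) (l : ℝ) (h1 : A (j + 1) x = (l : ℂ) • x) (h2 : A (j + 2) x = (l : ℂ) • x)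
    (hq : A j q = x) (B : ℝ)
    (hB : B = 0 ∨ ∃ i, i + 1 = j ∧ B = ‖A i (((l ^ 3 : ℝ) : ℂ) • q - (l : ℂ) • A j x)‖ ^ 2) :
    l ^ 2 * ‖A (j + 3) (A (j + 3) x) - ((l ^ 2 : ℝ) : ℂ) • x‖ ^ 2 + B ≤ 0 := by
  set w := A (j + 3) x with hw
  set c := A (j + 3) w with hc
  set d := A (j + 5) (A (j + 4) w) with hd
  apply small (C := l ^ 8 * ‖x‖ ^ 2 + l ^ 2 * ‖d‖ ^ 2)
  intro s hs0
  set h : lp (fun _ : ℕ => E) 2 := e j (((s ^ 2 * l ^ 3 : ℝ) : ℂ) • q)
    + e (j + 1) (((-s * l : ℝ) : ℂ) • x) + e (j + 2) x + e (j + 3) (((-s * l : ℝ) : ℂ) • x)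
    + e (j + 4) (((s ^ 2 * l : ℝ) : ℂ) • w) with hh
  have hle : ‖adjoint (W + (s : ℂ) • W ^ 2) h‖ ^ 2 ≤ ‖(W + (s : ℂ) • W ^ 2) h‖ ^ 2 := by
    rw [pow_two W]; exact hypo_le (hQ (s : ℂ)) h
  have hS : (W + (s : ℂ) • W ^ 2) h = e (j + 1) (((s ^ 2 * l ^ 3 : ℝ) : ℂ) • x)
      + e (j + 2) (((-s * l ^ 2 + s ^ 3 * l ^ 4 : ℝ) : ℂ) • x)
      + e (j + 3) (((l - s ^ 2 * l ^ 3 : ℝ) : ℂ) • x)
      + e (j + 6) (((s ^ 3 * l : ℝ) : ℂ) • d) := by
    simp only [hh, pow_two, add_apply, smul_apply, mul_apply_eq_comp, map_add, map_smul, W_e A W hW,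
      hq, h1, h2, add_assoc, Nat.reduceAdd, ← hw, ← hd]
    push_cast
    module
  have hN : ‖(W + (s : ℂ) • W ^ 2) h‖ ^ 2 = (s ^ 2 * l ^ 3) ^ 2 * ‖x‖ ^ 2
      + (-s * l ^ 2 + s ^ 3 * l ^ 4) ^ 2 * ‖x‖ ^ 2 + (l - s ^ 2 * l ^ 3) ^ 2 * ‖x‖ ^ 2
      + (s ^ 3 * l) ^ 2 * ‖d‖ ^ 2 := by
    have z := norm_add_e (0 : lp (fun _ : ℕ => E) 2) (j + 1) (((s ^ 2 * l ^ 3 : ℝ) : ℂ) • x) rfl
    rw [zero_add] at z
    rw [hS, norm_add_e, norm_add_e, norm_add_e, z, nsq1, nsq1, nsq1, nsq1]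
    · simp
    all_goals simp [e_apply]
  have v0 : h j = ((s ^ 2 * l ^ 3 : ℝ) : ℂ) • q := by simp [hh, e_apply]
  have v1 : h (j + 1) = ((-s * l : ℝ) : ℂ) • x := by simp [hh, e_apply]
  have v2 : h (j + 2) = x := by simp [hh, e_apply]
  have v3 : h (j + 3) = ((-s * l : ℝ) : ℂ) • x := by simp [hh, e_apply]
  have v4 : h (j + 4) = ((s ^ 2 * l : ℝ) : ℂ) • w := by simp [hh, e_apply]
  have v5 : h (j + 5) = 0 := by simp [hh, e_apply]
  set g := adjoint (W + (s : ℂ) • W ^ 2) h with hg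
  have g1 : g (j + 1) = ((l - s ^ 2 * l ^ 3 : ℝ) : ℂ) • x := by
    rw [hg, adjS_apply A W hs hW]
    simp only [add_assoc, Nat.reduceAdd, v2, v3, map_smul, h1, h2]
    push_cast; module
  have g2 : g (j + 2) = ((-s * l ^ 2 : ℝ) : ℂ) • x + ((s ^ 3 * l : ℝ) : ℂ) • A (j + 2) c := by
    rw [hg, adjS_apply A W hs hW]
    simp only [add_assoc, Nat.reduceAdd, v3, v4, map_smul, h2, ← hc]
    push_cast; module
  have g3 : g (j + 3) = ((s ^ 2 * l : ℝ) : ℂ) • c := by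
    rw [hg, adjS_apply A W hs hW]
    simp only [add_assoc, Nat.reduceAdd, v4, v5, map_smul, map_zero, smul_zero, add_zero, ← hc]
  have hxc : (⟪x, A (j + 2) c⟫_ℂ).re = l * (⟪x, c⟫_ℂ).re := by
    rw [← hs (j + 2), h2, inner_smul_left]; simp
  have hdiff : ‖c - ((l ^ 2 : ℝ) : ℂ) • x‖ ^ 2
      = l ^ 4 * ‖x‖ ^ 2 - 2 * l ^ 2 * (⟪x, c⟫_ℂ).re + ‖c‖ ^ 2 := by
    have : c - ((l ^ 2 : ℝ) : ℂ) • x = ((-l ^ 2 : ℝ) : ℂ) • x + ((1 : ℝ) : ℂ) • c := by
      push_cast; module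
    rw [this, nsq]; ring
  have hlow : ‖g (j + 1)‖ ^ 2 + ‖g (j + 2)‖ ^ 2 + ‖g (j + 3)‖ ^ 2 + s ^ 4 * B ≤ ‖g‖ ^ 2 := by
    rcases hB with hB | ⟨i, hi, hB⟩
    · have := sum_le g {j + 1, j + 2, j + 3}
      rw [Finset.sum_insert (by simp), Finset.sum_pair (by simp)] at this
      rw [hB]; linarith
    · have := sum_le g {i, j + 1, j + 2, j + 3}
      rw [Finset.sum_insert (by simp; omega), Finset.sum_insert (by simp),
        Finset.sum_pair (by simp)] at this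
      have g0 : g i = ((s ^ 2 : ℝ) : ℂ) • A i (((l ^ 3 : ℝ) : ℂ) • q - (l : ℂ) • A j x) := by
        rw [hg, adjS_apply A W hs hW, show i + 2 = j + 1 by omega, hi]
        simp only [v0, v1, map_smul, map_sub]
        push_cast; module
      rw [g0, nsq1, ← hB] at this
      nlinarith
  rw [g1, g2, g3, nsq, nsq1, nsq1, hxc] at hlow
  rw [hdiff]
  have hp : 0 ≤ (s ^ 3 * l) ^ 2 * ‖A (j + 2) c‖ ^ 2 := by positivity
  nlinarith

omit [CompleteSpace E] in
lemma root {T : E →ₗ[ℂ] E} (hp : ∀ v, v ≠ 0 → 0 < (⟪T v, v⟫_ℂ).re) (x : E) (l : ℝ) (hl : 0 < l)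
    (h : T (T x) = ((l ^ 2 : ℝ) : ℂ) • x) : T x = (l : ℂ) • x := by
  by_contra hne
  have hv := hp (T x - (l : ℂ) • x) (sub_ne_zero.2 hne)
  have : T (T x - (l : ℂ) • x) = ((-l : ℝ) : ℂ) • (T x - (l : ℂ) • x) := by
    rw [map_sub, map_smul, h]; push_cast; module
  rw [this, inner_smul_left, Complex.conj_ofReal, Complex.re_ofReal_mul] at hv
  have h0 : 0 ≤ (⟪T x - (l : ℂ) • x, T x - (l : ℂ) • x⟫_ℂ).re := inner_self_nonneg (𝕜 := ℂ)
  nlinarith

lemma eig (hs : ∀ n, (A n).IsSymmetric) (hp : ∀ n v, v ≠ 0 → 0 < (⟪A n v, v⟫_ℂ).re)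
    (hsu : ∀ n, Function.Surjective (A n))
    (hW : ∀ h, W h 0 = 0 ∧ ∀ n, W h (n + 1) = A n (h n)) (hQ : QuadHyponormal W)
    (x : E) (l : ℝ) (hl : 0 < l) (k : ℕ) (hk : 1 ≤ k) (h1 : A k x = (l : ℂ) • x)
    (h2 : A (k + 1) x = (l : ℂ) • x) (n : ℕ) (hn : 1 ≤ n) : A n x = (l : ℂ) • x := by
  have hinj : ∀ n v, A n v = 0 → v = 0 := by
    intro n v hv
    by_contra hne
    have := hp n v hne
    simp [hv] at this
  have fw : ∀ j, A (j + 1) x = (l : ℂ) • x → A (j + 2) x = (l : ℂ) • x →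
      A (j + 3) x = (l : ℂ) • x := by
    intro j a b
    obtain ⟨q, hq⟩ := hsu j x
    have := key A W hs hW hQ j x q l a b hq 0 (Or.inl rfl)
    apply root (hp _) x l hl
    have h3 : ‖A (j + 3) (A (j + 3) x) - ((l ^ 2 : ℝ) : ℂ) • x‖ ^ 2 ≤ 0 := by
      by_contra hc
      push Not at hc
      have := mul_pos (pow_pos hl 2) hc
      linarith
    have h4 := le_antisymm h3 (sq_nonneg _)
    exact sub_eq_zero.1 (norm_eq_zero.1 (pow_eq_zero_iff (two_ne_zero) |>.1 h4))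
  have bw : ∀ i, A (i + 2) x = (l : ℂ) • x → A (i + 3) x = (l : ℂ) • x →
      A (i + 1) x = (l : ℂ) • x := by
    intro i a b
    obtain ⟨q, hq⟩ := hsu (i + 1) x
    have := key A W hs hW hQ (i + 1) x q l a b hq _ (Or.inr ⟨i, rfl, rfl⟩)
    apply root (hp _) x l hl
    have h3 : ‖A i (((l ^ 3 : ℝ) : ℂ) • q - (l : ℂ) • A (i + 1) x)‖ ^ 2 ≤ 0 := by
      have := mul_nonneg (sq_nonneg l)
        (sq_nonneg ‖A (i + 1 + 3) (A (i + 1 + 3) x) - ((l ^ 2 : ℝ) : ℂ) • x‖)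
      linarith
    have h4 := le_antisymm h3 (sq_nonneg _)
    have h5 := hinj _ _ (norm_eq_zero.1 (pow_eq_zero_iff (two_ne_zero) |>.1 h4))
    have h6 := congrArg (A (i + 1)) h5
    rw [map_sub, map_smul, map_smul, hq, map_zero, sub_eq_zero] at h6
    have hl0 : (l : ℂ) ≠ 0 := by exact_mod_cast hl.ne'
    apply smul_right_injective E hl0
    beta_reduce
    rw [← h6]; push_cast; module
  have up : ∀ m, A (k + m) x = (l : ℂ) • x ∧ A (k + m + 1) x = (l : ℂ) • x := by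
    intro m
    induction m with
    | zero => exact ⟨h1, h2⟩
    | succ m ih =>
      refine ⟨ih.2, ?_⟩
      obtain ⟨j, hj⟩ : ∃ j, k + m = j + 1 := ⟨k + m - 1, by omega⟩
      have := fw j (hj ▸ ih.1) (by rw [show j + 2 = k + m + 1 by omega]; exact ih.2)
      rwa [show j + 3 = k + (m + 1) + 1 by omega] at this
  have down : ∀ m, ∀ r, 1 ≤ r → r + m = k →
      A r x = (l : ℂ) • x ∧ A (r + 1) x = (l : ℂ) • x := by
    intro m
    induction m with
    | zero => intro r _ hr; rw [show r = k by omega]; exact ⟨h1, h2⟩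
    | succ m ih =>
      intro r hr hrk
      have := ih (r + 1) (by omega) (by omega)
      refine ⟨?_, this.1⟩
      obtain ⟨i, rfl⟩ : ∃ i, r = i + 1 := ⟨r - 1, by omega⟩
      exact bw i this.1 this.2
  rcases le_total k n with h | h
  · have := (up (n - k)).1
    rwa [show k + (n - k) = n by omega] at this
  · exact (down (k - n) n hn (by omega)).1

lemma inv (hs : ∀ n, (A n).IsSymmetric)
    (hW : ∀ h, W h 0 = 0 ∧ ∀ n, W h (n + 1) = A n (h n)) (hQ : QuadHyponormal W)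
    (k : ℕ) (x : E) (hx : A k x = A (k + 1) x) : A k (A k x) = A (k + 1) (A k x) := by
  have mono : ∀ v, ‖A k v‖ ^ 2 ≤ ‖A (k + 1) v‖ ^ 2 := by
    intro v
    have h0 := hQ 0
    rw [addSmul, zero_smul, add_zero] at h0
    have h1 := hypo_le h0 (e (k + 1) v)
    have h2 := sum_le (adjoint W (e (k + 1) v)) {k}
    rw [Finset.sum_singleton, adj_apply A W hs hW, e_apply, if_pos rfl] at h2
    have z := norm_add_e (0 : lp (fun _ : ℕ => E) 2) (k + 1 + 1) (A (k + 1) v) rfl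
    rw [zero_add] at z
    rw [W_e A W hW, z] at h1
    simp only [norm_zero] at h1
    linarith
  set y := A k x with hy
  set d := A k y - A (k + 1) y with hd
  have hM : 2 * ‖d‖ ^ 2 ≤ 0 := by
    apply small (C := ‖A (k + 1) d‖ ^ 2)
    intro s hs0
    have h1 := mono (((1 : ℝ) : ℂ) • x + ((s ^ 2 : ℝ) : ℂ) • d)
    rw [map_add, map_add, map_smul, map_smul, map_smul, map_smul, nsq, nsq, ← hx, ← hy,
      ← hs k, ← hs (k + 1)] at h1
    have h2 : (⟪A k y, d⟫_ℂ).re - (⟪A (k + 1) y, d⟫_ℂ).re = ‖d‖ ^ 2 := by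
      rw [← Complex.sub_re, ← inner_sub_left, ← hd]
      exact inner_self_eq_norm_sq (𝕜 := ℂ) d
    have h3 : 0 ≤ (s ^ 2) ^ 2 * ‖A k d‖ ^ 2 := by positivity
    have h4 : s ^ 2 * (2 * ‖d‖ ^ 2) ≤ s ^ 4 * ‖A (k + 1) d‖ ^ 2 := by
      rw [← h2]; nlinarith
    have h5 := mul_le_mul_of_nonneg_left h4 (sq_nonneg s)
    nlinarith
  have h4 : ‖d‖ ^ 2 = 0 := le_antisymm (by linarith) (sq_nonneg _)
  exact sub_eq_zero.1 (norm_eq_zero.1 (pow_eq_zero_iff (two_ne_zero) |>.1 h4))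

lemma main [FiniteDimensional ℂ E] (hs : ∀ n, (A n).IsSymmetric)
    (hp : ∀ n v, v ≠ 0 → 0 < (⟪A n v, v⟫_ℂ).re)
    (hW : ∀ h, W h 0 = 0 ∧ ∀ n, W h (n + 1) = A n (h n)) (hQ : QuadHyponormal W)
    (x : E) (k : ℕ) (hk : 1 ≤ k) (hx : A k x = A (k + 1) x) (n : ℕ) (hn : 1 ≤ n) :
    A n x = A 1 x := by
  have hsu : ∀ n, Function.Surjective (A n) := by
    intro n
    rw [← LinearMap.injective_iff_surjective, injective_iff_map_eq_zero]
    intro v hv
    by_contra hne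
    have := hp n v hne
    simp [hv] at this
  set K : Submodule ℂ E := LinearMap.ker (A k - A (k + 1)) with hK
  have memK : ∀ v, v ∈ K ↔ A k v = A (k + 1) v := by
    intro v; simp [hK, sub_eq_zero]
  have hinv : ∀ v ∈ K, A k v ∈ K := fun v hv =>
    (memK _).2 (inv A W hs hW hQ k v ((memK v).1 hv))
  have hsym := (hs k).restrict_invariant hinv
  set b := hsym.eigenvectorBasis rfl with hb
  have hb1 : ∀ i, A n (b i : E) = A 1 (b i : E) := by
    intro i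
    have h1 : A k (b i : E) = ((hsym.eigenvalues rfl i : ℝ) : ℂ) • (b i : E) := by
      exact congrArg Subtype.val (hsym.apply_eigenvectorBasis rfl i)
    have h2 : A (k + 1) (b i : E) = ((hsym.eigenvalues rfl i : ℝ) : ℂ) • (b i : E) := by
      rw [← (memK _).1 (b i).2, h1]
    have hne : (b i : E) ≠ 0 := by
      intro h0
      exact b.orthonormal.ne_zero i (Subtype.ext h0)
    have hl : 0 < hsym.eigenvalues rfl i := by
      have := hp k _ hne
      rw [h1, inner_smul_left, Complex.conj_ofReal, Complex.re_ofReal_mul] at this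
      have h0 : 0 ≤ (⟪(b i : E), (b i : E)⟫_ℂ).re := inner_self_nonneg (𝕜 := ℂ)
      by_contra hc
      push Not at hc
      nlinarith
    rw [eig A W hs hp hsu hW hQ _ _ hl k hk h1 h2 n hn,
      eig A W hs hp hsu hW hQ _ _ hl k hk h1 h2 1 le_rfl]
  have hxK : x ∈ K := (memK x).2 hx
  have hsum := congrArg Subtype.val (b.sum_repr ⟨x, hxK⟩)
  simp only [AddSubmonoidClass.coe_finsetSum, SetLike.val_smul] at hsum
  rw [← hsum]
  simp only [map_sum, map_smul, hb1]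

end core

theorem result (p : ℕ) (A : ℕ → Matrix (Fin p) (Fin p) ℂ) (hA : ∀ n, (A n).PosDef)
    (hS : ShiftHyp (fun n => act (A n)))
    (x : Fin p → ℂ) (k : ℕ) (hk : 1 ≤ k) (hx : (A k).mulVec x = (A (k + 1)).mulVec x) :
    ∀ n, 1 ≤ n → (A n).mulVec x = (A 1).mulVec x := by
  intro n hn
  obtain ⟨W, hW, hH⟩ := hS
  have hQ : QuadHyponormal W := by
    rcases hH with h | h
    · intro l
      have := h l 0
      rwa [addSmul, zero_smul, add_zero] at this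
    · exact h
  have hs : ∀ n, (Matrix.toEuclideanLin (A n)).IsSymmetric := fun n =>
    Matrix.isSymmetric_toEuclideanLin_iff.2 (hA n).isHermitian
  have hp : ∀ n (v : Vec p), v ≠ 0 → 0 < (⟪Matrix.toEuclideanLin (A n) v, v⟫_ℂ).re := by
    intro n v hv
    have hv' : v.ofLp ≠ 0 := by
      intro h0; apply hv; ext i; simpa using congrFun h0 i
    have h1 := (hA n).dotProduct_mulVec_pos hv'
    rw [hs n, EuclideanSpace.inner_eq_star_dotProduct, dotProduct_comm]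
    exact (Complex.pos_iff.1 h1).1
  have := main (fun n => Matrix.toEuclideanLin (A n)) W hs hp hW hQ (WithLp.toLp 2 x) k hk
    (by simp only [Matrix.toEuclideanLin_apply]; rw [hx]) n hn
  simp only [Matrix.toEuclideanLin_apply] at this
  exact congrArg WithLp.ofLp this

end Pool.Agent.Results.MP_c6f870_an.Yes
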